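import Pool.Agent.Helper988.AC.Sub
import Pool.Agent.H696AC.Zero

set_option autoImplicit false
open Filter Topology

namespace Pool.Agent.Results.MP_ae3269_an.CofiniteIdeals

section Defs

variable (A : Type) [NonUnitalNormedRing A] [NormedSpace ℂ A] [IsScalarTower ℂ A A]
  [SMulCommClass ℂ A A]

/-- Property (C): every homomorphism from a complex Banach algebra into `A` with commutative range
is continuous. -/
def PropertyC : Prop :=
  ∀ (B : Type) [NonUnitalNormedRing B] [NormedSpace ℂ B] [IsScalarTower ℂ B B]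
    [SMulCommClass ℂ B B] [CompleteSpace B] (θ : B →ₙₐ[ℂ] A),
    (∀ x y : B, θ x * θ y = θ y * θ x) → Continuous θ

/-- Every homomorphism from a complex Banach algebra into `A` is continuous. -/
def AllContinuous : Prop :=
  ∀ (B : Type) [NonUnitalNormedRing B] [NormedSpace ℂ B] [IsScalarTower ℂ B B]
    [SMulCommClass ℂ B B] [CompleteSpace B] (θ : B →ₙₐ[ℂ] A), Continuous θ

variable {A}

/-- `K` is a closed two-sided ideal. -/
def IsClosedIdeal (K : Submodule ℂ A) : Prop :=
  IsClosed (K : Set A) ∧ (∀ a x : A, x ∈ K → a * x ∈ K) ∧ (∀ a x : A, x ∈ K → x * a ∈ K)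

/-- The products of `n + 1` elements of `J`. -/
def Products (J : Submodule ℂ A) : ℕ → Set A
  | 0 => J
  | n + 1 => {x | ∃ a ∈ J, ∃ c ∈ Products J n, x = a * c}

variable (A)

/-- The closed powers of the closed ideals of finite codimension have zero intersection: for every
`y ≠ 0` there are a closed ideal `J` of finite codimension, a number `n` and a closed ideal `K`
that contains all products of `n + 1` elements of `J` but not `y`. -/
def PowersSeparate : Prop :=
  ∀ y : A, y ≠ 0 → ∃ (J K : Submodule ℂ A) (n : ℕ), IsClosedIdeal J ∧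
    FiniteDimensional ℂ (A ⧸ J) ∧ IsClosedIdeal K ∧ (∀ x ∈ Products J n, x ∈ K) ∧ y ∉ K

end Defs

lemma prod_eq {A : Type} [NonUnitalNormedRing A] [NormedSpace ℂ A] [IsScalarTower ℂ A A]
    [SMulCommClass ℂ A A] (J : Submodule ℂ A) (n : ℕ) :
    Helper988.AC.PowProd J n = Products J n := by
  induction n with
  | zero => rfl
  | succ n ih =>
    show {x | ∃ a ∈ J, ∃ c ∈ Helper988.AC.PowProd J n, x = a * c} =
      {x | ∃ a ∈ J, ∃ c ∈ Products J n, x = a * c}
    rw [ih]

lemma convert {A : Type} [NonUnitalNormedRing A] [NormedSpace ℂ A] [IsScalarTower ℂ A A]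
    [SMulCommClass ℂ A A] (h : PowersSeparate A) :
    ∀ y : A, y ≠ 0 → ∃ (K J : Submodule ℂ A) (n : ℕ), IsClosed (K : Set A) ∧
      (∀ a x, x ∈ K → a * x ∈ K) ∧ (∀ a x, x ∈ K → x * a ∈ K) ∧
      IsClosed (J : Set A) ∧ FiniteDimensional ℂ (A ⧸ J) ∧
      (∀ a x, x ∈ J → a * x ∈ J) ∧ (∀ a x, x ∈ J → x * a ∈ J) ∧
      (∀ x ∈ Helper988.AC.PowProd J n, x ∈ K) ∧ y ∉ K := by
  intro y hy
  obtain ⟨J, K, n, hJ, hfin, hK, hJK, hyK⟩ := h y hy
  exact ⟨K, J, n, hK.1, hK.2.1, hK.2.2, hJ.1, hfin, hJ.2.1, hJ.2.2,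
    fun x hx => hJK x (by rwa [prod_eq] at hx), hyK⟩

/-- Property (C) excludes nilpotent elements. -/
lemma reduced_of_C {A : Type} [NonUnitalNormedRing A] [NormedSpace ℂ A] [IsScalarTower ℂ A A]
    [SMulCommClass ℂ A A] (h : PropertyC A) (a : A) (ha : a * a = 0) : a = 0 := by
  by_contra hne
  obtain ⟨f, hf⟩ := Pool.Agent.H696AC.exists_disc
  let θ : Pool.Agent.H696AC.Z →ₙₐ[ℂ] A :=
    { toFun := fun z => f z • a
      map_smul' := fun c z => by simp [mul_smul]
      map_zero' := by simp
      map_add' := fun x y => by simp [add_smul]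
      map_mul' := fun x y => by
        rw [Pool.Agent.H696AC.Z_mul, map_zero, zero_smul, smul_mul_smul_comm, ha, smul_zero] }
  have hθ : Continuous θ := h Pool.Agent.H696AC.Z θ (fun x y => by
    show (f x • a) * (f y • a) = (f y • a) * (f x • a)
    rw [smul_mul_smul_comm, smul_mul_smul_comm, ha, smul_zero, smul_zero])
  apply hf
  let L : Pool.Agent.H696AC.Z →ₗ[ℂ] A := f.smulRight a
  have hL : Continuous L := hθ
  have hn : 0 < ‖a‖ := norm_pos_iff.2 hne
  let F : Pool.Agent.H696AC.Z →L[ℂ] A := ⟨L, hL⟩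
  refine AddMonoidHomClass.continuous_of_bound f (‖F‖ / ‖a‖) fun x => ?_
  have h1 := F.le_opNorm x
  have h2 : F x = f x • a := rfl
  rw [h2, norm_smul] at h1
  rw [div_mul_eq_mul_div, le_div_iff₀ hn]
  exact h1

/-- Let `A` be a complex Banach algebra in which the closed powers of the closed ideals of finite
codimension have zero intersection (for example, the closed ideals of finite codimension themselves
have zero intersection).  Then the following are equivalent: every homomorphism from a Banach algebra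
into `A` is continuous; property (C) holds, that is, every such homomorphism with commutative range
is continuous; `A` has no nonzero element with square zero. -/
theorem result :
    (∀ (A : Type) [NonUnitalNormedRing A] [NormedSpace ℂ A] [IsScalarTower ℂ A A]
      [SMulCommClass ℂ A A] [CompleteSpace A], PowersSeparate A →
      (AllContinuous A ↔ PropertyC A) ∧ (PropertyC A ↔ ∀ a : A, a * a = 0 → a = 0)) ∧
    (∀ (A : Type) [NonUnitalNormedRing A] [NormedSpace ℂ A] [IsScalarTower ℂ A A]
      [SMulCommClass ℂ A A], PropertyC A → ∀ a : A, a * a = 0 → a = 0) ∧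
    (∀ (A : Type) [NonUnitalNormedRing A] [NormedSpace ℂ A],
      (∀ y : A, y ≠ 0 → ∃ J : Submodule ℂ A, IsClosedIdeal J ∧ FiniteDimensional ℂ (A ⧸ J) ∧ y ∉ J) →
      PowersSeparate A) := by
  have key : ∀ (A : Type) [NonUnitalNormedRing A] [NormedSpace ℂ A] [IsScalarTower ℂ A A]
      [SMulCommClass ℂ A A] [CompleteSpace A], PowersSeparate A →
      (∀ a : A, a * a = 0 → a = 0) → AllContinuous A := by
    intro A _ _ _ _ _ hP hred B _ _ _ _ _ θ
    refine Helper988.AC.cofin_cont_sub θ ?_ (convert hP)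
    intro a ha hax
    have h1 : a * a * a = 0 := hax a ha
    apply hred
    apply hred
    calc a * a * (a * a) = a * a * a * a := by simp only [mul_assoc]
      _ = 0 := by rw [h1, zero_mul]
  refine ⟨?_, ?_, ?_⟩
  · intro A _ _ _ _ _ hP
    refine ⟨⟨fun h => ?_, fun h => key A hP fun a ha => reduced_of_C h a ha⟩,
      ⟨fun h a ha => reduced_of_C h a ha, fun h => ?_⟩⟩
    · intro B _ _ _ _ _ θ _
      exact h B θ
    · intro B _ _ _ _ _ θ _
      exact key A hP h B θ
  · intro A _ _ _ _ h a ha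
    exact reduced_of_C h a ha
  · intro A _ _ h y hy
    obtain ⟨J, hJ, hfin, hyJ⟩ := h y hy
    exact ⟨J, J, 0, hJ, hfin, hJ, fun x hx => hx, hyJ⟩

end Pool.Agent.Results.MP_ae3269_an.CofiniteIdeals
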